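import Pool.Agent.H592R2.MainW

/-! The W-hierarchy, taken with respect to (nonuniform) para-AC0 reductions, is strict. -/

open Pool.Agent.H592R2

theorem Pool.Agent.Results.MP_5f6b2a_lc.ParaAC0Strict.result :
    ∀ t : ℕ, 1 ≤ t → WAC0 t ⊂ WAC0 (t + 1) :=
  WAC0_strict
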