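import Pool.Agent.H583R2.WH.Main

set_option autoImplicit false

/-!
# The `W`-hierarchy is strict relative to a random oracle
-/

namespace Pool.Agent.Results.MP_5f6b2a_lc.RandomOracle

open Pool.Agent.H628R3.RO Pool.Agent.H583R2.WH

/-- For almost every oracle `A`: `FPT ⊂ W[1]` and `W[t] ⊂ W[t + 1]` for every `t` (proper
inclusions, relative to `A`), and `W[t + 1]` is not even contained in `A[t]`, also if arbitrary
functions of the parameter are allowed in the definition of `A[t]`. -/
theorem result : ∀ᵐ A ∂randomOracle, FPT A ⊂ WC A 1 ∧ ∀ t, WC A t ⊂ WC A (t + 1) ∧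
    ¬ WC A (t + 1) ⊆ ACN A t :=
  main

end Pool.Agent.Results.MP_5f6b2a_lc.RandomOracle
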