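import Pool.Agent.H550R2.WH.Up

set_option autoImplicit false

/-! Symmetric reductions: the second level of the W-hierarchy is not contained in the first. -/

namespace Pool.Agent.Results.MP_5f6b2a_lc.SymmetricReductions

open Finset Pool.Agent.H550R2.Lift Pool.Agent.H550R2.Lin Pool.Agent.H550R2.WH

theorem result :
    -- explicit bound, for every number of quantifiers
    (∀ (κ b t q L d m : ℕ) (Λ Y : Type) [Fintype Λ] [Fintype Y],
      1 ≤ t → 4 * t ≤ κ + 1 → Fintype.card Y ≤ 2 ^ L → (κ + 1) * b + q * L < m →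
      ∀ (F : SRed (Ver (κ + 1) b × Sets (Fin m) κ) (Idx (Fin m) κ b) Λ Y d pS)
        (ψ : (Λ → (Fin d → Fin q) → Bool) → Prop),
        (∀ E, Sig1 ψ (F.out (inc E)) ↔ Hit E) →
        2 ^ (b * (t + 1)) ≤ (κ + 1) * (Fintype.card Y ^ d * F.size)) ∧
    -- no reduction of hitting set to existential queries
    (∀ (c d : ℕ) (f g : ℕ → ℕ) (κ : ℕ), 4 * (c * (d + 1) + 1) ≤ κ + 1 →
      ∃ h B, ∀ b, B ≤ b → ∀ (Λ Y : Type) [Fintype Λ] [Fintype Y],
        Fintype.card Y ≤ f (κ + 1) * ((κ + 1) * 2 ^ b) ^ c →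
        ∀ F : SRed (Ver (κ + 1) b × Sets (Fin (h * b)) κ) (Idx (Fin (h * b)) κ b) Λ Y d pS,
          F.size ≤ f (κ + 1) * ((κ + 1) * 2 ^ b) ^ c →
          ∀ ψ : (Λ → (Fin d → Fin (g (κ + 1))) → Bool) → Prop,
            ¬ ∀ E, Sig1 ψ (F.out (inc E)) ↔ Hit E) ∧
    -- hitting set is a query of the second level
    (∀ (κ b m : ℕ), ∃ F : SRed (Ver (κ + 1) b × Sets (Fin m) κ) (Idx (Fin m) κ b)
        (Fin (κ + 1) ⊕ Bool) (Uni (Fin m) κ b) 2 pS, F.size = 0 ∧ F.Equivariant ∧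
      ∃ ψ : ((Fin (κ + 1) ⊕ Bool) → (Fin 2 → Fin (κ + 1) ⊕ Fin 1) → Bool) → Prop,
        ∀ E, Sig2 ψ (F.out (inc E)) ↔ Hit E) := by
  classical
  refine ⟨?_, w2_w1, ?_⟩
  · intro κ b t q L d m Λ Y _ _ ht h4 hY hm F ψ hF
    by_contra hlt
    refine sig1_core ht h4 hY ?_ F (not_le.1 hlt) ψ hF
    rw [Fintype.card_fin]
    exact hm
  · intro κ b m
    exact ⟨redU, redU_size, redU_equiv, psiU, redU_hit⟩

end Pool.Agent.Results.MP_5f6b2a_lc.SymmetricReductions
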